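import Pool.Agent.Y998.LP.Defs
import Pool.Agent.Y375.CN.EN

set_option autoImplicit false

/-!
# LP-EN2: eigenfunctions of the complete graph Hamiltonian, constant `1/2`
-/

namespace Pool.Agent.Y495.LP

open Finset Equiv Pool.Agent.Y998.CN Pool.Agent.Y375.CN.EN

section

variable {V : Type} [Fintype V] [DecidableEq V] {q : ℕ}

/-- the weight of a colouring -/
def W (c : V → Fin q) : ℕ := ∑ x, (c x : ℕ)

theorem W_update (c : V → Fin q) (y : V) (a : Fin q) :
    W (Function.update c y a) + (c y : ℕ) = W c + (a : ℕ) := by
  unfold W
  rw [← Finset.add_sum_erase univ _ (Finset.mem_univ y), ← Finset.add_sum_erase univ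
    (fun x => (c x : ℕ)) (Finset.mem_univ y), Function.update_self]
  have h : ∑ x ∈ univ.erase y, (Function.update c y a x : ℕ) = ∑ x ∈ univ.erase y, (c x : ℕ) := by
    refine Finset.sum_congr rfl fun x hx => ?_
    rw [Function.update_of_ne (Finset.ne_of_mem_erase hx)]
  rw [h]
  omega

theorem W_kap (c : V → Fin q) : W c = ∑ a : Fin q, (a : ℕ) * kap c a := by
  unfold W kap
  have h : ∀ a : Fin q, (a : ℕ) * (univ.filter fun x => c x = a).card =
      ∑ x, if c x = a then (a : ℕ) else 0 := by
    intro a
    rw [← Finset.sum_filter, Finset.sum_const, smul_eq_mul, mul_comm]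
  simp only [h]
  rw [Finset.sum_comm]
  refine Finset.sum_congr rfl fun x _ => ?_
  simp

open Classical in
theorem D_pattern2 {a o : Fin q} (ha : a ≠ o) {f : (V → Fin q) → ℝ} {μ : Fin q → ℕ} {j : ℕ}
    (hf : ∀ c, f c ≠ 0 → kap c = μ)
    (h0 : ∀ ν : V → Option (Fin q), (univ.filter fun x => ν x ≠ none).card ≤ j →
      ∑ c, (if Ext ν c then f c else 0) = 0)
    (ν : V → Option (Fin q)) (hν : (univ.filter fun x => ν x ≠ none).card ≤ j) :
    ∑ c, (if Ext ν c then D a o f c else 0) = 0 := by
  have h1 : ∀ c, (if Ext ν c then D a o f c else 0) =
      ∑ y, if Ext ν c ∧ c y = o then f (Function.update c y a) else 0 := by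
    intro c
    unfold D
    split_ifs with h
    · refine Finset.sum_congr rfl fun y _ => ?_
      simp [h]
    · symm
      refine Finset.sum_eq_zero fun y _ => ?_
      rw [if_neg]
      exact fun h' => h h'.1
  simp only [h1]
  rw [Finset.sum_comm]
  have h2 : ∀ y, ∑ c, (if Ext ν c ∧ c y = o then f (Function.update c y a) else 0) =
      ∑ c, (if Ext ν c ∧ ν y = none ∧ c y = a then f c else 0) := by
    intro y
    by_cases hy : ν y = none
    · rw [← Finset.sum_filter, ← Finset.sum_filter]
      refine Finset.sum_nbij' (fun c => Function.update c y a) (fun c => Function.update c y o)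
        ?_ ?_ ?_ ?_ ?_
      · intro c hc
        simp only [mem_filter, mem_univ, true_and] at hc ⊢
        refine ⟨?_, hy, by simp⟩
        intro x b hx
        have hxy : x ≠ y := by
          rintro rfl
          rw [hy] at hx
          exact absurd hx (by simp)
        rw [Function.update_of_ne hxy]
        exact hc.1 x b hx
      · intro c hc
        simp only [mem_filter, mem_univ, true_and] at hc ⊢
        refine ⟨?_, by simp⟩
        intro x b hx
        have hxy : x ≠ y := by
          rintro rfl
          rw [hy] at hx
          exact absurd hx (by simp)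
        rw [Function.update_of_ne hxy]
        exact hc.1 x b hx
      · intro c hc
        simp only [mem_filter, mem_univ, true_and] at hc
        simp only [Function.update_idem]
        rw [← hc.2, Function.update_eq_self]
      · intro c hc
        simp only [mem_filter, mem_univ, true_and] at hc
        simp only [Function.update_idem]
        rw [← hc.2.2, Function.update_eq_self]
      · intro c _
        rfl
    · have hz : ∑ c, (if Ext ν c ∧ ν y = none ∧ c y = a then f c else 0) = 0 := by
        refine Finset.sum_eq_zero fun c _ => ?_
        rw [if_neg]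
        exact fun h => hy h.2.1
      rw [hz]
      by_cases hyo : ν y = some o
      · -- the site is prescribed to have the colour `o`
        have hν' : (univ.filter fun x => Function.update ν y (some a) x ≠ none).card ≤ j := by
          have : (univ.filter fun x => Function.update ν y (some a) x ≠ none) =
              univ.filter fun x => ν x ≠ none := by
            ext x
            simp only [mem_filter, mem_univ, true_and]
            by_cases hx : x = y
            · subst hx
              simp [hy]
            · rw [Function.update_of_ne hx]
          rw [this]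
          exact hν
        refine Eq.trans ?_ (h0 _ hν')
        rw [← Finset.sum_filter, ← Finset.sum_filter]
        refine Finset.sum_nbij' (fun c => Function.update c y a) (fun c => Function.update c y o)
          ?_ ?_ ?_ ?_ ?_
        · intro c hc
          simp only [mem_filter, mem_univ, true_and] at hc ⊢
          intro x b hx
          by_cases hxy : x = y
          · subst hxy
            rw [Function.update_self] at hx ⊢
            exact Option.some.inj hx
          · rw [Function.update_of_ne hxy] at hx ⊢
            exact hc.1 x b hx
        · intro c hc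
          simp only [mem_filter, mem_univ, true_and] at hc ⊢
          refine ⟨?_, by simp⟩
          intro x b hx
          by_cases hxy : x = y
          · subst hxy
            rw [Function.update_self]
            rw [hyo] at hx
            exact Option.some.inj hx
          · rw [Function.update_of_ne hxy]
            exact hc x b (by rw [Function.update_of_ne hxy]; exact hx)
        · intro c hc
          simp only [mem_filter, mem_univ, true_and] at hc
          simp only [Function.update_idem]
          rw [← hc.2, Function.update_eq_self]
        · intro c hc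
          simp only [mem_filter, mem_univ, true_and] at hc
          simp only [Function.update_idem]
          have : c y = a := hc y a (by rw [Function.update_self])
          rw [← this, Function.update_eq_self]
        · intro c _
          rfl
      · refine Finset.sum_eq_zero fun c _ => ?_
        rw [if_neg]
        rintro ⟨h, h'⟩
        obtain ⟨b, hb⟩ := Option.ne_none_iff_exists'.1 hy
        have h3 := h y b hb
        rw [h'] at h3
        exact hyo (by rw [hb, h3])
  simp only [h2]
  rw [Finset.sum_comm]
  have h3 : ∀ c, ∑ y, (if Ext ν c ∧ ν y = none ∧ c y = a then f c else 0) =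
      ((μ a : ℝ) - (univ.filter fun y => ν y = some a).card) * (if Ext ν c then f c else 0) := by
    intro c
    by_cases hc : Ext ν c
    · by_cases hfc : f c = 0
      · simp [hfc]
      · rw [if_pos hc, ← Finset.sum_filter, Finset.sum_const, nsmul_eq_mul]
        congr 1
        rw [← hf c hfc]
        unfold kap
        have h4 : (univ.filter fun x => c x = a) = (univ.filter fun y => Ext ν c ∧ ν y = none ∧
            c y = a) ∪ (univ.filter fun y => ν y = some a) := by
          ext x
          simp only [mem_filter, mem_univ, true_and, mem_union]
          constructor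
          · intro hx
            rcases hν' : ν x with _ | b
            · exact Or.inl ⟨hc, rfl, hx⟩
            · right
              rw [← hx, hc x b hν']
          · rintro (h | h)
            · exact h.2.2
            · exact hc x a h
        have h5 : Disjoint (univ.filter fun y => Ext ν c ∧ ν y = none ∧
            c y = a) (univ.filter fun y => ν y = some a) := by
          rw [Finset.disjoint_left]
          intro x hx hx'
          simp only [mem_filter, mem_univ, true_and] at hx hx'
          rw [hx.2.1] at hx'
          exact absurd hx' (by simp)
        rw [h4, Finset.card_union_of_disjoint h5]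
        push_cast
        ring
    · rw [if_neg hc, mul_zero]
      refine Finset.sum_eq_zero fun y _ => ?_
      rw [if_neg]
      exact fun h => hc h.1
  simp only [h3]
  rw [← Finset.mul_sum, h0 ν hν, mul_zero]

theorem mixed2 {o : Fin q} {f : (V → Fin q) → ℝ} (c : V → Fin q) {x : V} (hx : c x ≠ o)
    (hD : ∀ c', D (c x) o f c' = 0) :
    ∑ y, (if c y = o then (f c - f (c ∘ swap x y)) else 0) = ((kap c o : ℝ) + 1) * f c := by
  have h1 := hD (Function.update c x o)
  unfold D at h1
  have h2 : ∀ z, (if Function.update c x o z = o then
      f (Function.update (Function.update c x o) z (c x)) else 0) =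
      (if z = x then f c else 0) + (if c z = o then f (c ∘ swap x z) else 0) := by
    intro z
    by_cases hz : z = x
    · subst hz
      simp [hx]
    · rw [Function.update_of_ne hz, if_neg hz, zero_add]
      split_ifs with h
      · rw [swap_upd c (fun h => hz h.symm) h]
      · rfl
  simp only [h2, Finset.sum_add_distrib, Finset.sum_ite_eq', Finset.mem_univ, if_true] at h1
  have h3 : ∀ y, (if c y = o then (f c - f (c ∘ swap x y)) else 0) =
      (if c y = o then f c else 0) - (if c y = o then f (c ∘ swap x y) else 0) := by
    intro y
    split_ifs <;> simp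
  simp only [h3, Finset.sum_sub_distrib]
  have h4 : ∑ y, (if c y = o then f c else 0) = (kap c o : ℝ) * f c := by
    rw [← Finset.sum_filter, Finset.sum_const, nsmul_eq_mul]
    rfl
  rw [h4]
  linarith

/-- the energy of a highest weight function -/
theorem energy2 {f : (V → Fin q) → ℝ} (hD : ∀ a b : Fin q, b < a → ∀ c, D a b f c = 0)
    (c : V → Fin q) :
    Lf f c = 2 * ((∑ x, ∑ b : Fin q, if b < c x then ((kap c b : ℝ) + 1) else 0) * f c) := by
  have h1 : ∀ x y, f c - f (c ∘ swap x y) =
      (if c y < c x then (f c - f (c ∘ swap x y)) else 0) +
      (if c x < c y then (f c - f (c ∘ swap y x)) else 0) := by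
    intro x y
    rcases lt_trichotomy (c x) (c y) with h | h | h
    · rw [if_neg (not_lt.2 h.le), if_pos h, zero_add, swap_comm]
    · have : c ∘ swap x y = c := by
        funext z
        by_cases h1 : z = y
        · subst h1
          simp [h]
        · by_cases h2 : z = x
          · subst h2
            simp [h]
          · simp [swap_apply_of_ne_of_ne h2 h1]
      rw [this, if_neg (by rw [h]; exact lt_irrefl _), if_neg (by rw [h]; exact lt_irrefl _)]
      ring
    · rw [if_pos h, if_neg (not_lt.2 h.le), add_zero]
  have h2 : ∀ x, ∑ y, (if c y < c x then (f c - f (c ∘ swap x y)) else 0) =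
      (∑ b : Fin q, if b < c x then ((kap c b : ℝ) + 1) else 0) * f c := by
    intro x
    rw [Finset.sum_mul]
    have h3 : ∀ y, (if c y < c x then (f c - f (c ∘ swap x y)) else 0) =
        ∑ b : Fin q, if b < c x then (if c y = b then (f c - f (c ∘ swap x y)) else 0) else 0 := by
      intro y
      rw [Finset.sum_eq_single (c y)]
      · rw [if_pos rfl]
      · intro b _ hb
        have hb' : ¬ (c y = b) := fun h => hb h.symm
        simp only [if_neg hb', ite_self]
      · intro h
        exact absurd (Finset.mem_univ _) h
    simp only [h3]
    rw [Finset.sum_comm]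
    refine Finset.sum_congr rfl fun b _ => ?_
    split_ifs with h
    · exact mixed2 c h.ne' (hD _ _ h)
    · simp
  unfold Lf
  rw [Finset.sum_congr rfl fun x _ => Finset.sum_congr rfl fun y _ => h1 x y]
  simp only [Finset.sum_add_distrib]
  have h4 : ∑ x, ∑ y, (if c x < c y then (f c - f (c ∘ swap y x)) else 0) =
      ∑ x, ∑ y, (if c y < c x then (f c - f (c ∘ swap x y)) else 0) := Finset.sum_comm
  rw [h4]
  simp only [h2]
  rw [← Finset.sum_mul]
  ring

open Classical in
theorem main2 (lam : ℝ) (j : ℕ) : ∀ (w : ℕ) (μ : Fin q → ℕ) (f : (V → Fin q) → ℝ),
    f ≠ 0 → (∀ c, f c ≠ 0 → kap c = μ) → (∀ c, f c ≠ 0 → W c = w) →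
    (∀ c, Lf f c = 2 * lam * f c) →
    (∀ ν : V → Option (Fin q), (univ.filter fun x => ν x ≠ none).card ≤ j →
      ∑ c, (if Ext ν c then f c else 0) = 0) →
    ((j : ℝ) + 1) * Fintype.card V / 2 ≤ lam := by
  intro w
  induction w using Nat.strong_induction_on with
  | _ w ih =>
    intro μ f hf hs hw hL hp
    by_cases hD : ∃ a b : Fin q, b < a ∧ D a b f ≠ 0
    · obtain ⟨a, b, hab, hDa⟩ := hD
      -- a point of the support
      have hsupp : ∀ c, D a b f c ≠ 0 → ∃ y, c y = b ∧ f (Function.update c y a) ≠ 0 := by
        intro c hc
        unfold D at hc
        obtain ⟨y, _, hy⟩ := Finset.exists_ne_zero_of_sum_ne_zero hc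
        have hyo : c y = b := by
          by_contra h
          exact hy (if_neg h)
        rw [if_pos hyo] at hy
        exact ⟨y, hyo, hy⟩
      have hwD : ∀ c, D a b f c ≠ 0 → W c + (a : ℕ) = w + (b : ℕ) := by
        intro c hc
        obtain ⟨y, hy, hfy⟩ := hsupp c hc
        have h1 := W_update c y a
        rw [hw _ hfy, hy] at h1
        exact h1.symm
      obtain ⟨c1, hc1⟩ : ∃ c, D a b f c ≠ 0 := by
        by_contra h
        push Not at h
        exact hDa (funext h)
      have hab' : (b : ℕ) < (a : ℕ) := hab
      have hw1 := hwD c1 hc1
      refine ih (W c1) (by omega)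
        (Function.update (Function.update μ a (μ a - 1)) b (μ b + 1)) (D a b f) hDa ?_ ?_ ?_ ?_
      · intro c hc
        obtain ⟨y, hy, hfy⟩ := hsupp c hc
        rw [kap_update c y hy hab.ne', hs _ hfy]
      · intro c hc
        have := hwD c hc
        omega
      · intro c
        rw [Lf_D]
        have : Lf f = fun c => 2 * lam * f c := by
          funext c
          exact hL c
        rw [this, D_smul]
      · intro ν hν
        exact D_pattern2 hab.ne' hs hp ν hν
    · push Not at hD
      have hD' : ∀ a b : Fin q, b < a → ∀ c, D a b f c = 0 := fun a b hab c => by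
        rw [hD a b hab]; rfl
      obtain ⟨c, hc⟩ : ∃ c, f c ≠ 0 := by
        by_contra h
        push Not at h
        exact hf (funext h)
      have h1 := energy2 hD' c
      rw [hL c] at h1
      have h2 : lam = ∑ x, ∑ b : Fin q, if b < c x then ((kap c b : ℝ) + 1) else 0 := by
        have h3 : (lam - ∑ x, ∑ b : Fin q, if b < c x then ((kap c b : ℝ) + 1) else 0) * f c = 0 := by
          linarith
        rcases mul_eq_zero.1 h3 with h | h
        · linarith
        · exact absurd h hc
      have hk := hs c hc
      -- every colour class is small
      have hj : ∀ o : Fin q, (j : ℝ) + 1 ≤ ((univ.filter fun y => c y ≠ o).card : ℝ) := by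
        intro o
        have h3 := card_ne c o
        by_contra h
        rw [not_le] at h
        have h4 : (univ.filter fun y => c y ≠ o).card < j + 1 := by exact_mod_cast h
        refine (small o j (univ.filter fun y => c y ≠ o).card (by omega) μ f ?_ hf hs
          (fun ν _ hν => hp ν hν)).elim
        rw [hk] at h3
        omega
      -- the number of pairs
      have h5 : ∀ x, ∑ y, (if c y < c x then (1 : ℝ) else 0) =
          ∑ b : Fin q, if b < c x then (kap c b : ℝ) else 0 := by
        intro x
        have h6 : ∀ b : Fin q, (if b < c x then (kap c b : ℝ) else 0) =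
            ∑ y, if c y = b then (if b < c x then (1 : ℝ) else 0) else 0 := by
          intro b
          rw [← Finset.sum_filter, Finset.sum_const, nsmul_eq_mul]
          unfold kap
          split_ifs <;> simp
        simp only [h6]
        rw [Finset.sum_comm]
        refine Finset.sum_congr rfl fun y _ => ?_
        rw [Finset.sum_ite_eq]
        simp
      have h7 : ∑ x, ∑ y, (if c y < c x then (1 : ℝ) else 0) ≤ lam := by
        rw [h2]
        refine Finset.sum_le_sum fun x _ => ?_
        rw [h5]
        refine Finset.sum_le_sum fun b _ => ?_
        split_ifs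
        · linarith
        · exact le_rfl
      have h8 : ∑ x, ∑ y, (if c y ≠ c x then (1 : ℝ) else 0) =
          2 * ∑ x, ∑ y, (if c y < c x then (1 : ℝ) else 0) := by
        have h9 : ∀ x y, (if c y ≠ c x then (1 : ℝ) else 0) =
            (if c y < c x then (1 : ℝ) else 0) + (if c x < c y then (1 : ℝ) else 0) := by
          intro x y
          rcases lt_trichotomy (c x) (c y) with h | h | h
          · rw [if_pos h.ne', if_neg (not_lt.2 h.le), if_pos h, zero_add]
          · rw [if_neg (by rw [h]; exact fun h => h rfl), if_neg (by rw [h]; exact lt_irrefl _),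
              if_neg (by rw [h]; exact lt_irrefl _), zero_add]
          · rw [if_pos h.ne, if_pos h, if_neg (not_lt.2 h.le), add_zero]
        simp only [h9, Finset.sum_add_distrib]
        have h10 : ∑ x, ∑ y, (if c x < c y then (1 : ℝ) else 0) =
            ∑ x, ∑ y, (if c y < c x then (1 : ℝ) else 0) := Finset.sum_comm
        rw [h10]
        ring
      have h11 : ((j : ℝ) + 1) * Fintype.card V ≤
          ∑ x, ∑ y, (if c y ≠ c x then (1 : ℝ) else 0) := by
        have h12 : ∀ x, (j : ℝ) + 1 ≤ ∑ y, (if c y ≠ c x then (1 : ℝ) else 0) := by
          intro x
          rw [← Finset.sum_filter, Finset.sum_const, nsmul_eq_mul, mul_one]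
          exact hj (c x)
        calc ((j : ℝ) + 1) * Fintype.card V = ∑ _x : V, ((j : ℝ) + 1) := by
              rw [Finset.sum_const, Finset.card_univ, nsmul_eq_mul, mul_comm]
          _ ≤ _ := Finset.sum_le_sum fun x _ => h12 x
      linarith

end

theorem t_EN2 : Pool.Agent.Y998.LP.S_EN2 := by
  classical
  intro V _ _ q j lam f hf hH hp
  obtain ⟨c0, hc0⟩ : ∃ c, f c ≠ 0 := by
    by_contra h
    push Not at h
    exact hf (funext h)
  have hL : ∀ c, Lf f c = 2 * lam * f c := by
    intro c
    have h1 := hH c
    rw [ham_apply] at h1
    linarith
  set g : (V → Fin q) → ℝ := fun c => if kap c = kap c0 then f c else 0 with hg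
  have hgs : ∀ c, g c ≠ 0 → kap c = kap c0 := by
    intro c hc
    by_contra h
    exact hc (by simp [hg, h])
  refine main2 lam j (W c0) (kap c0) g ?_ hgs ?_ ?_ ?_
  · intro h
    apply hc0
    have := congrFun h c0
    simpa [hg] using this
  · intro c hc
    rw [W_kap, W_kap, hgs c hc]
  · intro c
    by_cases h : kap c = kap c0
    · have h1 : Lf g c = Lf f c := by
        unfold Lf
        refine Finset.sum_congr rfl fun x _ => Finset.sum_congr rfl fun y _ => ?_
        simp only [hg, kap_swap, h, if_true]
      rw [h1, hL c]
      simp only [hg, h, if_true]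
    · have h1 : Lf g c = 0 := by
        unfold Lf
        refine Finset.sum_eq_zero fun x _ => Finset.sum_eq_zero fun y _ => ?_
        simp only [hg, kap_swap, h, if_false]
        ring
      rw [h1]
      simp only [hg, h, if_false]
      ring
  · intro ν hνj
    have h1 := hp ν (kap c0) hνj
    refine Eq.trans ?_ h1
    refine Finset.sum_congr rfl fun c _ => ?_
    have h2 : (kap c = kap c0) ↔ (∀ a, (univ.filter fun x => c x = a).card = kap c0 a) := by
      constructor
      · intro h a
        rw [← h]
        rfl
      · intro h
        funext a
        exact h a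
    by_cases h3 : Ext ν c
    · by_cases h4 : kap c = kap c0
      · rw [if_pos h3, if_pos ⟨h3, h2.1 h4⟩]
        simp only [hg, h4, if_true]
      · rw [if_pos h3, if_neg (fun h => h4 (h2.2 h.2))]
        simp only [hg, h4, if_false]
    · rw [if_neg h3]
      symm
      split_ifs with h
      · exact absurd h.1 h3
      · rfl

end Pool.Agent.Y495.LP
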